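import Pool.Agent.Helper25.SQ.Final2

/-!
Elements near to the real multiples of the squares in a set with bounded representation function.
-/

set_option autoImplicit false

open Finset Filter

namespace Pool.Agent.Helper51.GM

open Pool.Agent.Helper25.RC Pool.Agent.Helper5.SQ

theorem card_window (y h : ℝ) (hh : 0 ≤ h) (S : Finset ℕ) (hS : ∀ n ∈ S, |(n : ℝ) - y| ≤ h) :
    (#S : ℝ) ≤ 2 * h + 1 := by
  classical
  rcases S.eq_empty_or_nonempty with h0 | h0
  · subst h0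
    simp
    positivity
  set a := S.min' h0 with ha
  set b := S.max' h0 with hb
  have h1 := abs_le.1 (hS a (S.min'_mem h0))
  have h2 := abs_le.1 (hS b (S.max'_mem h0))
  have h3 : S ⊆ Icc a b := fun n hn => mem_Icc.2 ⟨S.min'_le n hn, S.le_max' n hn⟩
  have h4 : #S ≤ b + 1 - a := (card_le_card h3).trans (le_of_eq (Nat.card_Icc a b))
  have hab : a ≤ b := S.min'_le b (S.max'_mem h0)
  have h5 : (#S : ℝ) ≤ (b : ℝ) + 1 - a := by
    have : ((b + 1 - a : ℕ) : ℝ) = (b : ℝ) + 1 - a := by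
      rw [Nat.cast_sub (by omega)]
      push_cast
      ring
    rw [← this]
    exact_mod_cast h4
  linarith [h1.1, h2.2]

/-- The number of pairs of elements of `U` with a given sum of squares, for a set `U` whose
elements `u` have elements of `A` near to `α u ^ 2`. -/
theorem rep_image_le {A : Set ℕ} {g α h : ℝ} (hg : ∀ n : ℕ, (rep A n : ℝ) ≤ g) (hα : 0 < α)
    (hh : 0 ≤ h) (U : Finset ℕ) (ν : ℕ → ℕ)
    (hU : ∀ u ∈ U, h / α + 1 < u ∧ ν u ∈ A ∧ |(ν u : ℝ) - α * u ^ 2| ≤ h)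
    (B : Set ℕ) (hB : ∀ n ∈ B, ∃ u ∈ U, u ^ 2 = n) (m : ℕ) :
    (rep B m : ℝ) ≤ (4 * h + 1) * g := by
  classical
  have hg0 : 0 ≤ g := (Nat.cast_nonneg _).trans (hg 0)
  have hinj : ∀ u ∈ U, ∀ v ∈ U, ν u = ν v → u = v := by
    have key : ∀ u ∈ U, ∀ v ∈ U, ν u = ν v → ¬ v < u := by
      intro u hu v hv e hlt
      obtain ⟨h1, _, h2⟩ := hU u hu
      obtain ⟨h3, _, h4⟩ := hU v hv
      rw [e] at h2
      rw [abs_le] at h2 h4
      have h5 : ((v : ℝ) + 1) ≤ u := by exact_mod_cast hlt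
      have h6 : α * (h / α + 1) < α * v := mul_lt_mul_of_pos_left h3 hα
      have h7 : α * (h / α + 1) = h + α := by field_simp
      have h8 : (0 : ℝ) ≤ v := Nat.cast_nonneg _
      have h9 : α * ((v : ℝ) + 1) ^ 2 ≤ α * (u : ℝ) ^ 2 := by gcongr
      nlinarith [h2.1, h2.2, h4.1, h4.2]
    intro u hu v hv e
    exact le_antisymm (not_lt.1 (key u hu v hv e)) (not_lt.1 (key v hv u hu e.symm))
  set P : Finset (ℕ × ℕ) := (U ×ˢ U).filter (fun p => p.1 ^ 2 + p.2 ^ 2 = m) with hP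
  have h1 : rep B m ≤ #P := by
    unfold rep
    refine Finset.card_le_card_of_surjOn (fun p : ℕ × ℕ => (p.1 ^ 2, p.2 ^ 2)) ?_
    intro q hq
    rw [mem_coe, mem_filter, HasAntidiagonal.mem_antidiagonal] at hq
    obtain ⟨h2, hq1, hq2⟩ := hq
    obtain ⟨u, hu, h3⟩ := hB _ hq1
    obtain ⟨v, hv, h4⟩ := hB _ hq2
    refine ⟨(u, v), ?_, ?_⟩
    · rw [mem_coe, hP, mem_filter, mem_product]
      exact ⟨⟨hu, hv⟩, by simp only; rw [h3, h4, h2]⟩
    · exact Prod.ext h3 h4
  set W : Finset ℕ := P.image (fun p => ν p.1 + ν p.2) with hW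
  have h2 : (#W : ℝ) ≤ 2 * (2 * h) + 1 := by
    refine card_window (α * m) (2 * h) (by positivity) W fun n hn => ?_
    obtain ⟨p, hp, rfl⟩ := mem_image.1 hn
    rw [hP, mem_filter, mem_product] at hp
    obtain ⟨_, _, h3⟩ := hU _ hp.1.1
    obtain ⟨_, _, h4⟩ := hU _ hp.1.2
    have h5 : (m : ℝ) = (p.1 : ℝ) ^ 2 + (p.2 : ℝ) ^ 2 := by
      rw [← hp.2]
      push_cast
      ring
    rw [abs_le] at h3 h4 ⊢
    push_cast
    rw [h5]
    constructor <;> nlinarith [h3.1, h3.2, h4.1, h4.2]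
  have h3 : #P ≤ ∑ s ∈ W, rep A s := by
    rw [Finset.card_eq_sum_card_fiberwise (f := fun p => ν p.1 + ν p.2) (t := W)
      (fun p hp => by
        rw [mem_coe] at hp ⊢
        exact mem_image_of_mem _ hp)]
    refine Finset.sum_le_sum fun s _ => ?_
    unfold rep
    refine Finset.card_le_card_of_injOn (fun p => (ν p.1, ν p.2)) ?_ ?_
    · intro p hp
      rw [mem_coe, mem_filter, hP, mem_filter, mem_product] at hp
      rw [mem_coe, mem_filter, HasAntidiagonal.mem_antidiagonal]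
      exact ⟨hp.2, (hU _ hp.1.1.1).2.1, (hU _ hp.1.1.2).2.1⟩
    · intro p hp q hq e
      rw [mem_coe, mem_filter, hP, mem_filter, mem_product] at hp hq
      simp only [Prod.mk.injEq] at e
      exact Prod.ext (hinj _ hp.1.1.1 _ hq.1.1.1 e.1) (hinj _ hp.1.1.2 _ hq.1.1.2 e.2)
  calc (rep B m : ℝ) ≤ (#P : ℝ) := by exact_mod_cast h1
    _ ≤ ((∑ s ∈ W, rep A s : ℕ) : ℝ) := by exact_mod_cast h3
    _ = ∑ s ∈ W, (rep A s : ℝ) := by rw [Nat.cast_sum]
    _ ≤ ∑ s ∈ W, g := Finset.sum_le_sum fun s _ => hg s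
    _ = #W * g := by rw [Finset.sum_const, nsmul_eq_mul]
    _ ≤ (4 * h + 1) * g := by
      refine mul_le_mul_of_nonneg_right ?_ hg0
      linarith

/-- the natural numbers at distance at most `h` from `α u ^ 2`, `u` a natural number -/
def nearSq (α h : ℝ) : Set ℕ := {n | ∃ u : ℕ, |(n : ℝ) - α * u ^ 2| ≤ h}

/-- A set with bounded representation function has few elements near to the real multiples of the
squares. -/
theorem near_real : ∃ c : ℝ, 0 < c ∧ ∀ (g α : ℝ), 0 < α →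
    ∃ C : ℝ, ∀ A : Set ℕ, (∀ n : ℕ, (rep A n : ℝ) ≤ g) → ∀ x : ℕ, 2 ≤ x →
      (#(below (A ∩ nearSq α (Real.exp (c * √(Real.log x)))) x) : ℝ) ≤
        C * √x * Real.exp (-(c * √(Real.log x))) := by
  classical
  obtain ⟨c0, hc0, hlarge⟩ := Pool.Agent.Helper25.SQ.large_values
  obtain ⟨c1, hc1, hlarge⟩ := hlarge 1 0 0 one_pos
  set c : ℝ := min (c0 / 8) 1 with hc
  have hcpos : 0 < c := lt_min (by positivity) one_pos
  have hcle : c ≤ 1 := min_le_right _ _
  have hc8 : 8 * c ≤ c0 := by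
    have := min_le_left (c0 / 8) 1
    rw [← hc] at this
    linarith
  refine ⟨c, hcpos, fun g α hα => ?_⟩
  set K : ℝ := 4 / α + 5 with hK
  have hK0 : 0 < K := by positivity
  set K2 : ℝ := √(5 * max g 0 * K / c1) with hK2
  set K3 : ℝ := Real.exp (9 * c ^ 2 / 2) with hK3
  refine ⟨3 * K2 + 3 * (1 / α + 2) * K3, fun A hA x hx => ?_⟩
  have hx0 : (0 : ℝ) < x := by positivity
  have hx2 : (2 : ℝ) ≤ x := by exact_mod_cast hx
  have hl : 0 ≤ Real.log x := Real.log_nonneg (by linarith)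
  set L : ℝ := √(Real.log x) with hL
  have hL0 : 0 ≤ L := Real.sqrt_nonneg _
  have hLL : L ^ 2 = Real.log x := Real.sq_sqrt hl
  set h : ℝ := Real.exp (c * L) with hh
  have hh1 : 1 ≤ h := Real.one_le_exp (by positivity)
  have hhx : h ≤ 3 * x := by
    have h1 : c * L ≤ 1 + Real.log x := by nlinarith [sq_nonneg (L - 1)]
    calc h ≤ Real.exp (1 + Real.log x) := Real.exp_le_exp.2 h1
      _ = Real.exp 1 * x := by rw [Real.exp_add, Real.exp_log hx0]
      _ ≤ 3 * x := by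
        have := Real.exp_one_lt_d9
        nlinarith
  set X : ℕ := ⌈(x + h) / α⌉₊ + x + 2 with hX
  have hX2 : 2 ≤ X := by omega
  have hxX : (x : ℝ) ≤ X := by
    have : x ≤ X := by omega
    exact_mod_cast this
  have hXge : (x + h) / α < X := by
    have h1 := Nat.le_ceil ((x + h) / α)
    rw [hX]
    push_cast
    linarith
  have hXK : (X : ℝ) ≤ K * x := by
    have h1 := Nat.ceil_lt_add_one (show 0 ≤ (x + h) / α by positivity)
    have h2 : (x + h) / α ≤ 4 / α * x := by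
      rw [div_mul_eq_mul_div]
      gcongr
      linarith
    rw [hX, hK]
    push_cast
    nlinarith
  -- the set `U`
  set U : Finset ℕ := (range X).filter
    (fun u => h / α + 1 < u ∧ α * (u : ℝ) ^ 2 ≤ x + h ∧ ∃ n ∈ A, |(n : ℝ) - α * u ^ 2| ≤ h)
    with hUdef
  have hUm : ∀ u ∈ U, h / α + 1 < u ∧ α * (u : ℝ) ^ 2 ≤ x + h ∧
      ∃ n ∈ A, |(n : ℝ) - α * u ^ 2| ≤ h := fun u hu => (mem_filter.1 hu).2
  have hν : ∀ u : ℕ, ∃ n : ℕ, u ∈ U → n ∈ A ∧ |(n : ℝ) - α * u ^ 2| ≤ h := by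
    intro u
    by_cases hu : u ∈ U
    · obtain ⟨n, hn, h1⟩ := (hUm u hu).2.2
      exact ⟨n, fun _ => ⟨hn, h1⟩⟩
    · exact ⟨0, fun h1 => absurd h1 hu⟩
  choose ν hν using hν
  set B : Set ℕ := {n | ∃ u ∈ U, u ^ 2 = n} with hB
  obtain ⟨m, _, hm⟩ := hlarge B X hX2
  have hrep := rep_image_le hA hα (by linarith : 0 ≤ h) U ν
    (fun u hu => ⟨(hUm u hu).1, hν u hu⟩) B (fun n hn => hn) m
  have hBcard : #U ≤ #(below (B ∩ quad 1 0 0) X) := by
    refine Finset.card_le_card_of_injOn (fun u => u ^ 2) ?_ ?_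
    · intro u hu
      rw [mem_coe] at hu ⊢
      rw [mem_below]
      refine ⟨?_, ⟨u, hu, rfl⟩, (u : ℤ), by push_cast; ring⟩
      have h1 : ((u ^ 2 : ℕ) : ℝ) < X := by
        push_cast
        refine lt_of_le_of_lt ?_ hXge
        rw [le_div_iff₀ hα, mul_comm]
        exact (hUm u hu).2.1
      exact_mod_cast h1
    · intro u _ v _ e
      exact Nat.pow_left_injective two_ne_zero e
  have hg0 : 0 ≤ g := (Nat.cast_nonneg _).trans (hA 0)
  have hXpos : (0 : ℝ) < X := by linarith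
  -- the bound for `#U`
  have hU2 : (#U : ℝ) ^ 2 ≤ K2 ^ 2 * (x * Real.exp ((c - c0) * L)) := by
    have h1 : c1 * (#U : ℝ) ^ 2 / X * Real.exp (c0 * L) ≤ (4 * h + 1) * g := by
      refine le_trans ?_ (hm.trans hrep)
      have e1 : (#U : ℝ) ≤ #(below (B ∩ quad 1 0 0) X) := by exact_mod_cast hBcard
      have e2 : Real.exp (c0 * L) ≤ Real.exp (c0 * √(Real.log X)) := by
        refine Real.exp_le_exp.2 (mul_le_mul_of_nonneg_left ?_ hc0.le)
        exact Real.sqrt_le_sqrt (Real.log_le_log hx0 hxX)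
      gcongr
    have h2 : (4 * h + 1) * g ≤ 5 * h * max g 0 := by
      have : g ≤ max g 0 := le_max_left _ _
      have e1 : 4 * h + 1 ≤ 5 * h := by linarith
      gcongr
    have h3 : c1 * (#U : ℝ) ^ 2 * Real.exp (c0 * L) ≤ 5 * h * max g 0 * (K * x) := by
      have h4 := h1.trans h2
      rw [div_mul_eq_mul_div, div_le_iff₀ hXpos] at h4
      refine h4.trans ?_
      have : 0 ≤ max g 0 := le_max_right _ _
      gcongr
    have h5 : 0 ≤ 5 * max g 0 * K / c1 := by
      have : 0 ≤ max g 0 := le_max_right _ _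
      positivity
    rw [hK2, Real.sq_sqrt h5]
    have h6 : Real.exp ((c - c0) * L) = h * (Real.exp (c0 * L))⁻¹ := by
      rw [← Real.exp_neg, hh, ← Real.exp_add]
      ring_nf
    rw [h6]
    have h7 : 0 < Real.exp (c0 * L) := Real.exp_pos _
    have h8 : (#U : ℝ) ^ 2 ≤ 5 * h * max g 0 * (K * x) / (c1 * Real.exp (c0 * L)) := by
      rw [le_div_iff₀ (by positivity)]
      linarith
    refine h8.trans (le_of_eq ?_)
    field_simp
  have hU : (#U : ℝ) ≤ K2 * (√x * Real.exp ((c - c0) * L / 2)) := by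
    refine abs_le_of_sq_le_sq' ?_ (by positivity) |>.2
    rw [mul_pow, mul_pow, Real.sq_sqrt hx0.le, ← Real.exp_nat_mul]
    refine hU2.trans (le_of_eq ?_)
    congr 3
    push_cast
    ring
  -- the elements near to the multiples of the squares
  set V : Finset ℕ := U ∪ range (⌊h / α + 1⌋₊ + 1) with hV
  have hsub : below (A ∩ nearSq α h) x ⊆ V.biUnion
      (fun u => (range x).filter (fun n : ℕ => |(n : ℝ) - α * u ^ 2| ≤ h)) := by
    intro n hn
    rw [mem_below] at hn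
    obtain ⟨hnx, hnA, u, hu⟩ := hn
    rw [mem_biUnion]
    refine ⟨u, ?_, mem_filter.2 ⟨mem_range.2 hnx, hu⟩⟩
    rw [hV, mem_union]
    by_cases h1 : h / α + 1 < u
    · left
      have h2 : α * (u : ℝ) ^ 2 ≤ x + h := by
        have := abs_le.1 hu
        have h3 : (n : ℝ) ≤ x := by exact_mod_cast hnx.le
        linarith [this.1]
      rw [hUdef, mem_filter, mem_range]
      refine ⟨?_, h1, h2, n, hnA, hu⟩
      have h3 : (u : ℝ) < X := by
        have h4 : (u : ℝ) ≤ (u : ℝ) ^ 2 := by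
          have h5 : u ≤ u ^ 2 := Nat.le_self_pow two_ne_zero u
          exact_mod_cast h5
        have h6 : (u : ℝ) ^ 2 ≤ (x + h) / α := by
          rw [le_div_iff₀ hα, mul_comm]
          exact h2
        linarith
      exact_mod_cast h3
    · right
      rw [mem_range]
      push Not at h1
      exact Nat.lt_succ_of_le (Nat.le_floor h1)
  have hcard : (#(below (A ∩ nearSq α h) x) : ℝ) ≤ #V * (2 * h + 1) := by
    have h1 := (card_le_card hsub).trans card_biUnion_le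
    have h2 : (#(below (A ∩ nearSq α h) x) : ℝ) ≤ ((∑ u ∈ V, #((range x).filter
        (fun n : ℕ => |(n : ℝ) - α * u ^ 2| ≤ h)) : ℕ) : ℝ) := by exact_mod_cast h1
    refine h2.trans ?_
    rw [Nat.cast_sum, ← nsmul_eq_mul, ← Finset.sum_const]
    refine Finset.sum_le_sum fun u _ => ?_
    exact card_window (α * u ^ 2) h (by linarith) _ fun n hn => (mem_filter.1 hn).2
  have hVcard : (#V : ℝ) ≤ #U + (1 / α + 2) * h := by
    have h1 : #V ≤ #U + (⌊h / α + 1⌋₊ + 1) := (card_union_le _ _).trans (by rw [card_range])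
    have h2 : (⌊h / α + 1⌋₊ : ℝ) ≤ h / α + 1 := Nat.floor_le (by positivity)
    have h3 : (#V : ℝ) ≤ #U + (⌊h / α + 1⌋₊ + 1) := by exact_mod_cast h1
    have h4 : (1 / α + 2) * h = h / α + 2 * h := by ring
    rw [h4]
    linarith
  have hE : 0 < Real.exp (-(c * L)) := Real.exp_pos _
  have hs : 0 ≤ √(x : ℝ) := Real.sqrt_nonneg _
  -- first term
  have t1 : h * Real.exp ((c - c0) * L / 2) ≤ Real.exp (-(c * L)) := by
    rw [hh, ← Real.exp_add]
    refine Real.exp_le_exp.2 ?_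
    nlinarith
  -- second term
  have t2 : h * h ≤ K3 * √x * Real.exp (-(c * L)) := by
    have e1 : √(x : ℝ) = Real.exp (L ^ 2 / 2) := by
      rw [hLL, Real.sqrt_eq_rpow, Real.rpow_def_of_pos hx0]
      ring_nf
    rw [e1, hh, hK3, ← Real.exp_add, ← Real.exp_add, ← Real.exp_add]
    refine Real.exp_le_exp.2 ?_
    nlinarith [sq_nonneg (L - 3 * c)]
  calc (#(below (A ∩ nearSq α h) x) : ℝ) ≤ #V * (2 * h + 1) := hcard
    _ ≤ (#U + (1 / α + 2) * h) * (3 * h) := by
      have : 2 * h + 1 ≤ 3 * h := by linarith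
      have h0 : (0 : ℝ) ≤ #U + (1 / α + 2) * h := by positivity
      gcongr
    _ ≤ (K2 * (√x * Real.exp ((c - c0) * L / 2)) + (1 / α + 2) * h) * (3 * h) := by
      gcongr
    _ = 3 * K2 * √x * (h * Real.exp ((c - c0) * L / 2)) + 3 * (1 / α + 2) * (h * h) := by ring
    _ ≤ 3 * K2 * √x * Real.exp (-(c * L)) +
        3 * (1 / α + 2) * (K3 * √x * Real.exp (-(c * L))) := by
      have : 0 ≤ K2 := Real.sqrt_nonneg _
      gcongr
    _ = (3 * K2 + 3 * (1 / α + 2) * K3) * √x * Real.exp (-(c * L)) := by ring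

end Pool.Agent.Helper51.GM
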